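import Pool.Agent.R858.BN4
import Pool.Agent.R858.HypGenus

/-!
# MP_54820f_ag, Q1: Brill-Noether loci which are contained in loci of nets

Smooth irreducible projective curves over `ℂ` are given by their function fields `K`, see
`Pool/Agent/Helper395/CS/Defs.lean` (`IsCurve`, `Point`, `LineBundle`, `LineBundle.degree`) and
`Pool/Agent/Helper395/BC/Defs.lean` (`genus`); `H0 L` is the space of the global sections of a line
bundle `L`.

Let `r ≥ 3` and let `d, g` satisfy `2 r ≤ d` and `(d - 1) (d - 2) < 2 g`. Then the locus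
`M^r_{g,d}` is not empty and it is contained in the locus of nets `M^2_{g,e}` for
`e = d - 2 r + 4 < d - 2 r + 2 + ⌊(r + 3) / 2⌋`: a `g^r_d` on a curve of genus
`g > (d - 1) (d - 2) / 2` is not birational, so that one of its sections vanishes at two points of
the curve as soon as it vanishes at one of them, and `r - 2` such pairs of points can be subtracted.
So the statement of Q1 is false: it fails for every `r ≥ 3` and every large `g`.
-/

set_option autoImplicit false

open scoped WithZero Polynomial IntermediateField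
open Pool.Agent.Helper395.CS hiding genus
open Pool.Agent.Helper395.BC

namespace Pool.Agent.Results.MP_54820f_ag.ComposedSeries

/-- The curve with function field `K` carries a `g^r_d`: there is a line bundle `L` of degree `d` on
the curve with `h⁰(L) ≥ r + 1`. -/
def HasSeries (K : Type) [Field K] [Algebra ℂ K] (r d : ℤ) : Prop :=
  ∃ L : LineBundle K, L.degree = d ∧ FiniteDimensional ℂ (H0 L) ∧
    r + 1 ≤ (Module.finrank ℂ (H0 L) : ℤ)

/-- The Brill-Noether number `ρ(g, r, d) = g - (r + 1) (g - d + r)`. -/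
def rho (g r d : ℤ) : ℤ := g - (r + 1) * (g - d + r)

/-- The conditions of Q1 on `g, r, d, e`. -/
structure Admissible (g r d e : ℤ) : Prop where
  three_le : 3 ≤ r
  d_le : d ≤ g - 1
  e_le : e ≤ g - 1
  rho_neg : rho g r d < 0
  rho_two_neg : rho g 2 e < 0
  e_lt : e < d - 2 * r + 2 + (r + 3) / 2

/-- `M^r_{g,d} ⊆ M^2_{g,e}`: every curve of genus `g` with a `g^r_d` has a `g^2_e`. -/
def ContainedInNets (g r d e : ℤ) : Prop :=
  ∀ (K : Type) [Field K] [Algebra ℂ K], IsCurve K → (genus K : ℤ) = g →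
    HasSeries K r d → HasSeries K 2 e

/-- `M^r_{g,d}` is not empty: there is a curve of genus `g` with a `g^r_d`. -/
def LocusNonempty (g r d : ℤ) : Prop :=
  ∃ (K : Type) (_ : Field K) (_ : Algebra ℂ K), IsCurve K ∧ (genus K : ℤ) = g ∧ HasSeries K r d

/-- The statement of Q1: for all large `g` no locus `M^r_{g,d}` is contained in a locus `M^2_{g,e}`
in the stated range. -/
def StatementQ1 : Prop :=
  ∃ g₀ : ℤ, ∀ g ≥ g₀, ∀ r d e : ℤ, Admissible g r d e → ¬ ContainedInNets g r d e

theorem admissible {g r d : ℤ} (hr : 3 ≤ r) (hd : 2 * r ≤ d) (hg : (d - 1) * (d - 2) < 2 * g) :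
    Admissible g r d (d - 2 * r + 4) := by
  have h6 : 6 ≤ d := by linarith
  have hgd : d + 2 ≤ g := by nlinarith
  refine ⟨hr, by linarith, by linarith, ?_, ?_, ?_⟩
  · unfold rho
    obtain ⟨s, rfl⟩ : ∃ s, d = r + s := ⟨d - r, by ring⟩
    have hs : 3 ≤ s := by linarith
    have h1 : (s + 2) * (s + 1) ≤ (r + s - 1) * (r + s - 2) := by nlinarith
    have h2 : r * ((s + 2) * (s + 1) + 1) ≤ r * (2 * g) :=
      mul_le_mul_of_nonneg_left (by linarith) (by linarith)
    have h3 : 0 ≤ r * s ^ 2 := mul_nonneg (by linarith) (sq_nonneg s)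
    have h4 : 3 * s ≤ r * s := mul_le_mul_of_nonneg_right hr (by linarith)
    nlinarith
  · unfold rho
    nlinarith [sq_nonneg (d - 3)]
  · have : 3 ≤ (r + 3) / 2 := by omega
    linarith

theorem contained {g r d : ℤ} (hr : 3 ≤ r) (hd : 2 * r ≤ d) (hg : (d - 1) * (d - 2) < 2 * g) :
    ContainedInNets g r d (d - 2 * r + 4) := by
  intro K _ _ hK hgK hS
  obtain ⟨L, hL1, hL2, hL3⟩ := hS
  have hg0 : 0 < g := by nlinarith
  have hgn : genus K ≠ 0 := by omega
  obtain ⟨n, rfl⟩ : ∃ n : ℕ, r = n := ⟨r.toNat, by omega⟩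
  obtain ⟨M, hM1, hM2⟩ := Pool.Agent.R858.BN.composed hK hgn (L := L) (r := n) (by omega)
    (by omega) (by rw [hL1, hgK]; exact hg) (n - 2)
  refine ⟨M, ?_, H0_finite hK hgn M, by omega⟩
  rw [hM1, hL1]
  omega

theorem nonempty {g r d : ℤ} (hr : 3 ≤ r) (hd : 2 * r ≤ d) (hg : (d - 1) * (d - 2) < 2 * g) :
    LocusNonempty g r d := by
  have hg0 : 0 < g := by nlinarith
  obtain ⟨G, rfl⟩ : ∃ n : ℕ, g = n := ⟨g.toNat, by omega⟩
  obtain ⟨n, rfl⟩ : ∃ n : ℕ, r = n := ⟨r.toNat, by omega⟩
  obtain ⟨K, iF, iA, hK, hgK, x, hx, hx2⟩ := Pool.Agent.R858.BN.exists_hyperelliptic G (by omega)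
  refine ⟨K, iF, iA, hK, by rw [hgK], ?_⟩
  have hgn : genus K ≠ 0 := by omega
  set u : Kˣ := Units.mk0 x (ne_zero_of_transcendental hx) with hu
  set L := Pool.Agent.W518.PC.lpow (Pool.Agent.W518.SMR.lpole hK u) n with hL
  have hLd : L.degree = 2 * n := by
    rw [hL, Pool.Agent.W45.PCG.lpow_degree, Pool.Agent.W518.EG.lpole_degree]
    change (n : ℤ) * (degP x : ℤ) = _
    rw [hx2]
    ring
  have hfin : FiniteDimensional ℂ (H0 L) := H0_finite hK hgn L
  let φ : Polynomial.degreeLT ℂ (n + 1) →ₗ[ℂ] H0 L :=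
    LinearMap.codRestrict (H0 L) ((Polynomial.aeval x).toLinearMap ∘ₗ
      (Polynomial.degreeLT ℂ (n + 1)).subtype) (fun p v => by
        change v.val _ ≤ v.val (L.frame v : K)
        rw [hL, Pool.Agent.R858.BN.lpow_val, Pool.Agent.W518.SMR.lpole_val]
        exact Pool.Agent.R858.BN.aeval_val_le v p.2)
  have hφ : Function.Injective φ := by
    intro p q hpq
    have h1 : Polynomial.aeval x (p : ℂ[X]) = Polynomial.aeval x (q : ℂ[X]) :=
      congrArg (fun z : H0 L => (z : K)) hpq
    exact Subtype.ext ((transcendental_iff_injective.1 hx) h1)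
  have h1 : n + 1 ≤ Module.finrank ℂ (H0 L) := by
    have h2 := LinearMap.finrank_le_finrank_of_injective hφ
    rw [(Polynomial.degreeLTEquiv ℂ (n + 1)).finrank_eq] at h2
    simpa using h2
  obtain ⟨M, hM1, hM2⟩ := Pool.Agent.R858.BN.exists_add hK hgn L (d - 2 * n).toNat
  exact ⟨M, by rw [hM1, hLd]; omega, H0_finite hK hgn M, by omega⟩

/-- For all `r ≥ 3` and all `d, g` with `2 r ≤ d` and `(d - 1) (d - 2) < 2 g`, the numbers
`g, r, d, e = d - 2 r + 4` satisfy the conditions of Q1, the locus `M^r_{g,d}` is not empty, and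
`M^r_{g,d} ⊆ M^2_{g,e}`. In particular the statement of Q1 is false. -/
theorem result :
    (∀ g r d : ℤ, 3 ≤ r → 2 * r ≤ d → (d - 1) * (d - 2) < 2 * g →
      Admissible g r d (d - 2 * r + 4) ∧ LocusNonempty g r d ∧
        ContainedInNets g r d (d - 2 * r + 4)) ∧
    ¬ StatementQ1 := by
  refine ⟨fun g r d hr hd hg => ⟨admissible hr hd hg, nonempty hr hd hg, contained hr hd hg⟩, ?_⟩
  rintro ⟨g₀, h⟩
  exact h (max g₀ 11) (le_max_left _ _) 3 6 4
    (admissible le_rfl (by norm_num) (by have := le_max_right g₀ 11; linarith))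
    (contained le_rfl (by norm_num) (by have := le_max_right g₀ 11; linarith))

end Pool.Agent.Results.MP_54820f_ag.ComposedSeries
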